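import Pool.Agent.H66.CNK.PCZ

/-!
# The induction of the rows `HIN` and `VIN`, for a class of depth functions closed under quotients
-/

set_option autoImplicit false

namespace Pool.CND

open Finset

/-- the subgroup of elements of order dividing `p` -/
theorem vin_om {p : ℕ} {H : Type} [Group H] (hc : ∀ x : H, x ^ p = 1 → x ∈ Subgroup.center H) :
    ∃ Ω : Subgroup H, ∀ x : H, x ∈ Ω ↔ x ^ p = 1 :=
  ⟨{ carrier := {x | x ^ p = 1}
     one_mem' := one_pow p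
     mul_mem' := fun {a b} ha hb => by
        have h1 : Commute a b := (Subgroup.mem_center_iff.1 (hc b hb) a)
        change (a * b) ^ p = 1
        rw [h1.mul_pow, ha, hb, one_mul]
     inv_mem' := fun {a} ha => by
        change (a⁻¹) ^ p = 1
        rw [inv_pow, ha, inv_one] }, fun _ => Iff.rfl⟩

/-- the sum over a coset -/
theorem vin_coset {G : Type} [Group G] [Fintype G] {b : G → ℤ} (hb : UM b ⊤) {v : G} {l : ℤ}
    (M : Subgroup G) (hv : v ∉ M) (hmax : ∀ g : G, g ≠ 1 → b g ≤ l) :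
    sm b {y | v⁻¹ * y ∈ M} ≤ l + sm b {m | m ∈ M ∧ m ≠ 1} := by
  classical
  obtain ⟨w, hw, hwmax⟩ := Finset.exists_max_image (univ.filter fun y : G => v⁻¹ * y ∈ M) b
    ⟨v, by simp [one_mem]⟩
  rw [Finset.mem_filter] at hw
  have hwM : v⁻¹ * w ∈ M := hw.2
  have hw0 : w ∉ M := by
    intro h
    apply hv
    have h2 : v = w * (v⁻¹ * w)⁻¹ := by group
    rw [h2]
    exact M.mul_mem h (M.inv_mem hwM)
  have hw1 : w ≠ 1 := fun h => hw0 (by rw [h]; exact one_mem M)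
  have hset : {y : G | v⁻¹ * y ∈ M} = {y : G | w⁻¹ * y ∈ M} := by
    ext y
    simp only [Set.mem_ofPred_eq]
    constructor
    · intro h
      have h2 : w⁻¹ * y = (v⁻¹ * w)⁻¹ * (v⁻¹ * y) := by group
      rw [h2]
      exact M.mul_mem (M.inv_mem hwM) h
    · intro h
      have h2 : v⁻¹ * y = (v⁻¹ * w) * (w⁻¹ * y) := by group
      rw [h2]
      exact M.mul_mem hwM h
  rw [hset, pcz_sm_eq, pcz_sm_eq]
  rw [← Equiv.sum_comp (Equiv.mulLeft w)
    (fun y => if y ∈ {y : G | w⁻¹ * y ∈ M} then b y else 0)]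
  have h1 : ∀ m : G, (if (Equiv.mulLeft w) m ∈ {y : G | w⁻¹ * y ∈ M} then b ((Equiv.mulLeft w) m)
      else 0) ≤ (if m = 1 then l else 0) + (if m ∈ {m : G | m ∈ M ∧ m ≠ 1} then b m else 0) := by
    intro m
    simp only [Equiv.coe_mulLeft, Set.mem_ofPred_eq, inv_mul_cancel_left]
    by_cases h2 : m = 1
    · subst h2
      simp [hmax w hw1]
    · by_cases h3 : m ∈ M
      · have h4 : w * m ≠ 1 := by
          intro h5
          exact hw0 (by
            rw [eq_inv_of_mul_eq_one_left h5]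
            exact inv_mem h3)
        have h7 : b (w * m) ≤ b w := by
          apply hwmax
          rw [Finset.mem_filter]
          refine ⟨Finset.mem_univ _, ?_⟩
          rw [← mul_assoc]
          exact M.mul_mem hwM h3
        have h5 : b (w * m) ≤ b m := by
          have h6 := hb.mul w⁻¹ (Subgroup.mem_top _) (w * m) (Subgroup.mem_top _)
            (inv_ne_one.2 hw1) h4 (by rwa [inv_mul_cancel_left])
          rw [inv_mul_cancel_left, hb.inv w (Subgroup.mem_top _) hw1, min_eq_right h7] at h6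
          exact h6
        simp [h2, h3, h5]
      · simp [h2, h3]
  refine (Finset.sum_le_sum fun m _ => h1 m).trans ?_
  rw [Finset.sum_add_distrib,
    Finset.sum_ite_eq' univ (1 : G) (fun _ => l), if_pos (Finset.mem_univ _)]

theorem vin_nonneg {G : Type} [Group G] [Fintype G] {b : G → ℤ} (hb : UM b ⊤) (T : Set G)
    (hT : (1 : G) ∉ T) : 0 ≤ sm b T := by
  classical
  unfold sm
  refine Finset.sum_nonneg fun g hg => ?_
  rw [Finset.mem_filter] at hg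
  have h1 : g ≠ 1 := fun h => hT (by rw [← h]; exact hg.2)
  have := hb.pos g (Subgroup.mem_top _) h1
  omega

theorem vin_gen (p : ℕ) (𝒟 : ∀ (G : Type) [Group G], (G → ℤ) → Prop)
    (hPCG : S_PCG) (hPCQ : S_PCQ) (hp : p.Prime) (hp2 : p ≠ 2)
    (h1 : ∀ (G : Type) [Group G] [Fintype G] (b : G → ℤ), 𝒟 G b → UM b ⊤)
    (h2 : ∀ (G : Type) [Group G] [Fintype G] (b : G → ℤ), 𝒟 G b →
      ∀ g : G, g ≠ 1 → g ^ p = 1 ∨ b g < b (g ^ p))
    (h3 : ∀ (G : Type) [Group G] [Fintype G] (b : G → ℤ), 𝒟 G b →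
      ∀ (M : Subgroup G) [M.Normal], ∃ b' : G ⧸ M → ℤ, 𝒟 (G ⧸ M) b' ∧
        ∀ g : G, g ∉ M → sm b {y | g⁻¹ * y ∈ M} = Nat.card M * b' (g : G ⧸ M))
    (h4 : ∀ (G : Type) [Group G] [Fintype G] (b : G → ℤ) (z x : G) (R : Subgroup G), 𝒟 G b →
      orderOf z = p → (∀ g : G, g * z = z * g) → x ^ p = z →
      (∀ a g : G, a ^ p ∈ Subgroup.zpowers z → g * a * g⁻¹ * a⁻¹ ∈ Subgroup.zpowers z) →
      (∀ a : G, a ∈ R ↔ a ^ p ∈ Subgroup.zpowers z) →
      (∀ g : G, g ∉ Subgroup.zpowers z → sm b {y | g⁻¹ * y ∈ Subgroup.zpowers z} ≤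
        sm b {y | x⁻¹ * y ∈ Subgroup.zpowers z}) →
      p * sm b {g | g ∉ R} ≤ sm b {y | x⁻¹ * y ∈ Subgroup.zpowers z} +
        sm b {g | g ∉ Subgroup.zpowers z} →
      p * (sm b {y | x⁻¹ * y ∈ Subgroup.zpowers z} + sm b {g | g ∉ Subgroup.zpowers z}) ≤
        p * b z + sm b {g | g ∉ Subgroup.zpowers z}) :
    ∀ (n : ℕ) (G : Type) [Group G] [Fintype G] (b : G → ℤ) (Ω : Subgroup G) (l : ℤ), 𝒟 G b →
      (∃ r : ℕ, Nat.card G = p ^ r) → Nat.card G ≤ n →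
      (∀ x : G, x ^ p = 1 → x ∈ Subgroup.center G) → (∀ x : G, x ∈ Ω ↔ x ^ p = 1) →
      IsLst b (⊤ : Subgroup G) l →
      p * sm b {g | g ∉ Ω} ≤ l + sm b {g | g ∉ (⊥ : Subgroup G)} := by
  intro n
  induction n with
  | zero =>
    intro G _ _ b Ω l _ _ hc
    exact absurd (Nat.card_pos (α := G)) (by omega)
  | succ n ih =>
    intro G _ _ b Ω l hD hcd hcard hcen hΩ hl
    classical
    have hUM := h1 G b hD
    have hmax : ∀ g : G, g ≠ 1 → b g ≤ l := fun g hg => hl.le g (Subgroup.mem_top _) hg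
    have hl1 : 1 ≤ l := by
      obtain ⟨g, -, hg1, hgl⟩ := hl.mem
      rw [← hgl]
      exact hUM.pos g (Subgroup.mem_top _) hg1
    have hS1 : 0 ≤ sm b {g | g ∉ (⊥ : Subgroup G)} :=
      vin_nonneg hUM _ (fun h => h (one_mem _))
    by_cases hall : ∀ g : G, g ∈ Ω
    · have h0 : sm b {g | g ∉ Ω} = 0 := by
        rw [pcz_sm_eq]
        exact Finset.sum_eq_zero fun g _ => if_neg (fun h => h (hall g))
      rw [h0]
      omega
    obtain ⟨g0, hg0⟩ := not_forall.1 hall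
    have hΩc : Ω ≤ Subgroup.center G := fun x hx => hcen x ((hΩ x).1 hx)
    have hΩn : Ω.Normal := ⟨fun a ha g => by
      have h5 := Subgroup.mem_center_iff.1 (hΩc ha) g
      rw [h5, mul_inv_cancel_right]
      exact ha⟩
    obtain ⟨b₁, hD₁, hsum₁⟩ := h3 G b hD Ω
    have _ : Finite (G ⧸ Ω) := inferInstance
    let _ : Fintype (G ⧸ Ω) := Fintype.ofFinite _
    have hUM₁ := h1 (G ⧸ Ω) b₁ hD₁
    have hfib₁ := pcz_fib Ω b b₁ hsum₁
    have hg0' : (g0 : G ⧸ Ω) ≠ 1 := fun h => hg0 ((QuotientGroup.eq_one_iff g0).1 h)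
    obtain ⟨q, hq, hqmax⟩ := Finset.exists_max_image (univ.filter fun y : G ⧸ Ω => y ≠ 1) b₁
      ⟨_, by rw [Finset.mem_filter]; exact ⟨Finset.mem_univ _, hg0'⟩⟩
    rw [Finset.mem_filter] at hq
    obtain ⟨x, rfl⟩ := QuotientGroup.mk_surjective q
    have hx1 : (x : G ⧸ Ω) ≠ 1 := hq.2
    have hxΩ : x ∉ Ω := fun h => hx1 ((QuotientGroup.eq_one_iff x).2 h)
    have hqm : ∀ y : G ⧸ Ω, y ≠ 1 → b₁ y ≤ b₁ (x : G ⧸ Ω) := fun y hy =>
      hqmax y (by rw [Finset.mem_filter]; exact ⟨Finset.mem_univ _, hy⟩)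
    have hxp : (x : G ⧸ Ω) ^ p = 1 := by
      by_contra h5
      rcases h2 (G ⧸ Ω) b₁ hD₁ _ hx1 with h6 | h6
      · exact h5 h6
      · exact absurd (hqm _ h5) (not_le.2 h6)
    have hvΩ : x ^ p ∈ Ω := (QuotientGroup.eq_one_iff _).1 (by rw [QuotientGroup.mk_pow]; exact hxp)
    have hv1 : x ^ p ≠ 1 := fun h => hxΩ ((hΩ x).2 h)
    have hvp : (x ^ p) ^ p = 1 := (hΩ _).1 hvΩ
    -- all elements of order `p` of `G ⧸ Ω` are central
    have hcom : ∀ a g : G, a ^ p ∈ Ω → g * a * g⁻¹ * a⁻¹ ∈ Ω := by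
      intro a g ha
      have h5 := hPCG p G hp hp2 hcd hcen a g ((hΩ _).1 ha)
      have h6 := Ω.inv_mem ((hΩ _).2 h5)
      have h7 : g * a * g⁻¹ * a⁻¹ = (a * g * a⁻¹ * g⁻¹)⁻¹ := by group
      rw [h7]
      exact h6
    have hcen₁ : ∀ y : G ⧸ Ω, y ^ p = 1 → y ∈ Subgroup.center (G ⧸ Ω) := by
      intro y hy
      obtain ⟨a, rfl⟩ := QuotientGroup.mk_surjective y
      rw [Subgroup.mem_center_iff]
      intro g
      obtain ⟨g, rfl⟩ := QuotientGroup.mk_surjective g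
      have ha : a ^ p ∈ Ω := (QuotientGroup.eq_one_iff _).1 (by rw [QuotientGroup.mk_pow]; exact hy)
      have h5 := (QuotientGroup.eq_one_iff _).2 (hcom a g ha)
      have h6 : (g : G ⧸ Ω) * (a : G ⧸ Ω) * (g : G ⧸ Ω)⁻¹ * (a : G ⧸ Ω)⁻¹ = 1 := h5
      rw [mul_inv_eq_one] at h6
      rw [mul_inv_eq_iff_eq_mul] at h6
      exact h6
    obtain ⟨Ω₁, hΩ₁⟩ := vin_om hcen₁
    -- cardinalities
    have hcG : Nat.card G = Nat.card (G ⧸ Ω) * Nat.card Ω :=
      Subgroup.card_eq_card_quotient_mul_card_subgroup Ω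
    have hΩ2 : 2 ≤ Nat.card Ω := by
      have h5 : 1 < Nat.card Ω := by
        rw [Subgroup.one_lt_card_iff_ne_bot]
        intro h6
        rw [h6, Subgroup.mem_bot] at hvΩ
        exact hv1 hvΩ
      exact h5
    have hcard₁ : Nat.card (G ⧸ Ω) ≤ n := by
      have h5 : 0 < Nat.card (G ⧸ Ω) := Nat.card_pos
      nlinarith
    have hcd₁ : ∃ r : ℕ, Nat.card (G ⧸ Ω) = p ^ r := by
      obtain ⟨r, hr⟩ := hcd
      have h5 : Nat.card (G ⧸ Ω) ∣ p ^ r := by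
        rw [← hr, hcG]
        exact Dvd.intro _ rfl
      obtain ⟨s, -, hs⟩ := (Nat.dvd_prime_pow hp).1 h5
      exact ⟨s, hs⟩
    have hl₁ : IsLst b₁ (⊤ : Subgroup (G ⧸ Ω)) (b₁ (x : G ⧸ Ω)) :=
      ⟨⟨_, Subgroup.mem_top _, hx1, rfl⟩, fun g _ hg => hqm g hg⟩
    have hI := ih (G ⧸ Ω) b₁ Ω₁ (b₁ (x : G ⧸ Ω)) hD₁ hcd₁ hcard₁ hcen₁ hΩ₁ hl₁
    -- back to `G`
    have hcΩ : (0 : ℤ) < Nat.card Ω := by exact_mod_cast Nat.card_pos
    have hSR := hfib₁ {q | q ∉ Ω₁} (fun h => h (one_mem _))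
    have hSΩ : sm b {g | g ∉ Ω} = Nat.card Ω * sm b₁ {q | q ∉ (⊥ : Subgroup (G ⧸ Ω))} := by
      rw [← hfib₁ {q | q ∉ (⊥ : Subgroup (G ⧸ Ω))} (fun h => h (one_mem _))]
      congr 1
      ext g
      simp only [Set.mem_ofPred_eq, Subgroup.mem_bot, QuotientGroup.eq_one_iff]
    have hbx : sm b {y | x⁻¹ * y ∈ Ω} = Nat.card Ω * b₁ (x : G ⧸ Ω) := hsum₁ x hxΩ
    have hI' : (p : ℤ) * sm b {g | (g : G ⧸ Ω) ∈ {q : G ⧸ Ω | q ∉ Ω₁}} ≤
        sm b {y | x⁻¹ * y ∈ Ω} + sm b {g | g ∉ Ω} := by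
      rw [hSR, hbx, hSΩ]
      have h5 := mul_le_mul_of_nonneg_left hI hcΩ.le
      calc (p : ℤ) * (Nat.card Ω * sm b₁ {q | q ∉ Ω₁})
          = Nat.card Ω * (p * sm b₁ {q | q ∉ Ω₁}) := by ring
        _ ≤ _ := h5
        _ = _ := by ring
    -- the quotient by `M`
    obtain ⟨M, hMn, hMp, hvM, hMi⟩ := hPCQ p G (x ^ p) hp hp2 hcd hcen hvp hv1
    obtain ⟨b', hD', hsum'⟩ := h3 G b hD M
    have _ : Finite (G ⧸ M) := inferInstance
    let _ : Fintype (G ⧸ M) := Fintype.ofFinite _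
    have hUM' := h1 (G ⧸ M) b' hD'
    have hfib' := pcz_fib M b b' hsum'
    have hcM : (0 : ℤ) < Nat.card M := by exact_mod_cast Nat.card_pos
    have hvz : ((x ^ p : G) : G ⧸ M) ≠ 1 := fun h => hvM ((QuotientGroup.eq_one_iff _).1 h)
    have hoz : orderOf ((x ^ p : G) : G ⧸ M) = p := by
      have : Fact p.Prime := ⟨hp⟩
      refine orderOf_eq_prime ?_ hvz
      rw [← QuotientGroup.mk_pow, hvp]
      rfl
    have hzc : ∀ g : G ⧸ M, g * ((x ^ p : G) : G ⧸ M) = ((x ^ p : G) : G ⧸ M) * g := by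
      intro g
      obtain ⟨g, rfl⟩ := QuotientGroup.mk_surjective g
      rw [← QuotientGroup.mk_mul, ← QuotientGroup.mk_mul,
        Subgroup.mem_center_iff.1 (hcen (x ^ p) hvp) g]
    have hΩz : ∀ y : G, y ∈ Ω ↔ (y : G ⧸ M) ∈ Subgroup.zpowers ((x ^ p : G) : G ⧸ M) := by
      intro y
      constructor
      · intro hy
        obtain ⟨i, hi⟩ := hMi y ((hΩ y).1 hy)
        have h5 : (y : G ⧸ M) * ((x ^ p : G) : G ⧸ M) ^ i = 1 := by
          rw [← QuotientGroup.mk_pow, ← QuotientGroup.mk_mul]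
          exact (QuotientGroup.eq_one_iff _).2 hi
        rw [eq_inv_of_mul_eq_one_left h5]
        exact inv_mem (pow_mem (Subgroup.mem_zpowers _) i)
      · intro hy
        obtain ⟨i, hi⟩ := Subgroup.mem_zpowers_iff.1 hy
        have h5 : ((x ^ p) ^ i)⁻¹ * y ∈ M := by
          rw [← QuotientGroup.eq, QuotientGroup.mk_zpow]
          exact hi
        have h6 : y = (x ^ p) ^ i * (((x ^ p) ^ i)⁻¹ * y) := by group
        rw [h6]
        exact Ω.mul_mem (Ω.zpow_mem hvΩ i) ((hΩ _).2 (hMp _ h5))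
    let R' : Subgroup (G ⧸ M) := (Ω₁.comap (QuotientGroup.mk' Ω)).map (QuotientGroup.mk' M)
    have hmemΩ₁ : ∀ g : G, (g : G ⧸ Ω) ∈ Ω₁ ↔ g ^ p ∈ Ω := by
      intro g
      rw [hΩ₁, ← QuotientGroup.mk_pow, QuotientGroup.eq_one_iff]
    have hR'g : ∀ g : G, (g : G ⧸ M) ∈ R' ↔ g ^ p ∈ Ω := by
      intro g
      constructor
      · rintro ⟨r, hr, hrg⟩
        have hr2 : r ^ p ∈ Ω := (hmemΩ₁ r).1 hr
        have hrg' : (r : G ⧸ M) = (g : G ⧸ M) := hrg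
        have h5 : ((g ^ p : G) : G ⧸ M) = ((r ^ p : G) : G ⧸ M) := by
          rw [QuotientGroup.mk_pow (N := M) g p, QuotientGroup.mk_pow (N := M) r p, hrg']
        rw [hΩz, h5, ← hΩz]
        exact hr2
      · intro hg
        exact ⟨g, (hmemΩ₁ g).2 hg, rfl⟩
    have hR' : ∀ a : G ⧸ M, a ∈ R' ↔ a ^ p ∈ Subgroup.zpowers ((x ^ p : G) : G ⧸ M) := by
      intro a
      obtain ⟨g, rfl⟩ := QuotientGroup.mk_surjective a
      rw [hR'g, hΩz, QuotientGroup.mk_pow (N := M) g p]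
    have hcom' : ∀ a g : G ⧸ M, a ^ p ∈ Subgroup.zpowers ((x ^ p : G) : G ⧸ M) →
        g * a * g⁻¹ * a⁻¹ ∈ Subgroup.zpowers ((x ^ p : G) : G ⧸ M) := by
      intro a g ha
      obtain ⟨a, rfl⟩ := QuotientGroup.mk_surjective a
      obtain ⟨g, rfl⟩ := QuotientGroup.mk_surjective g
      rw [← QuotientGroup.mk_pow (N := M) a p, ← hΩz] at ha
      exact (hΩz _).1 (hcom a g ha)
    -- coset sums
    have hcos : ∀ g : G, g ∉ Ω → (Nat.card M : ℤ) *
        sm b' {y | ((g : G ⧸ M))⁻¹ * y ∈ Subgroup.zpowers ((x ^ p : G) : G ⧸ M)} =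
        sm b {y | g⁻¹ * y ∈ Ω} := by
      intro g hg
      rw [← hfib' {y | ((g : G ⧸ M))⁻¹ * y ∈ Subgroup.zpowers ((x ^ p : G) : G ⧸ M)}]
      · congr 1
        ext y
        simp only [Set.mem_ofPred_eq]
        rw [hΩz]
        rfl
      · intro h
        rw [Set.mem_ofPred_eq, mul_one] at h
        exact hg ((hΩz g).2 (by simpa using inv_mem h))
    have hs' : (Nat.card M : ℤ) * sm b' {q | q ∉ Subgroup.zpowers ((x ^ p : G) : G ⧸ M)} =
        sm b {g | g ∉ Ω} := by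
      rw [← hfib' {q | q ∉ Subgroup.zpowers ((x ^ p : G) : G ⧸ M)} (fun h => h (one_mem _))]
      congr 1
      ext y
      simp only [Set.mem_ofPred_eq]
      rw [hΩz]
    have hsR' : (Nat.card M : ℤ) * sm b' {q | q ∉ R'} =
        sm b {g | (g : G ⧸ Ω) ∈ {q : G ⧸ Ω | q ∉ Ω₁}} := by
      rw [← hfib' {q | q ∉ R'} (fun h => h (one_mem _))]
      congr 1
      ext y
      simp only [Set.mem_ofPred_eq]
      rw [hR'g, hmemΩ₁]
    have hbig : ∀ g : G ⧸ M, g ∉ Subgroup.zpowers ((x ^ p : G) : G ⧸ M) →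
        sm b' {y | g⁻¹ * y ∈ Subgroup.zpowers ((x ^ p : G) : G ⧸ M)} ≤
        sm b' {y | ((x : G ⧸ M))⁻¹ * y ∈ Subgroup.zpowers ((x ^ p : G) : G ⧸ M)} := by
      intro g hg
      obtain ⟨g, rfl⟩ := QuotientGroup.mk_surjective g
      have hgΩ : g ∉ Ω := fun h => hg ((hΩz g).1 h)
      refine le_of_mul_le_mul_left ?_ hcM
      rw [hcos g hgΩ, hcos x hxΩ, hsum₁ g hgΩ, hsum₁ x hxΩ]
      exact mul_le_mul_of_nonneg_left
        (hqm _ (fun h => hgΩ ((QuotientGroup.eq_one_iff g).1 h))) hcΩ.le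
    have hgap : (p : ℤ) * sm b' {g | g ∉ R'} ≤
        sm b' {y | ((x : G ⧸ M))⁻¹ * y ∈ Subgroup.zpowers ((x ^ p : G) : G ⧸ M)} +
        sm b' {g | g ∉ Subgroup.zpowers ((x ^ p : G) : G ⧸ M)} := by
      refine le_of_mul_le_mul_left ?_ hcM
      rw [mul_add, hcos x hxΩ, hs', mul_left_comm, hsR']
      exact hI'
    have hH := h4 (G ⧸ M) b' ((x ^ p : G) : G ⧸ M) (x : G ⧸ M) R' hD' hoz hzc
      (by rw [QuotientGroup.mk_pow]) hcom' hR' hbig hgap
    have hT0 : 0 ≤ sm b' {y | ((x : G ⧸ M))⁻¹ * y ∈ Subgroup.zpowers ((x ^ p : G) : G ⧸ M)} := by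
      apply vin_nonneg hUM'
      intro h
      rw [Set.mem_ofPred_eq, mul_one] at h
      exact hxΩ ((hΩz x).2 (by simpa using inv_mem h))
    have hp0 : (0 : ℤ) ≤ p := by positivity
    have hK : (p : ℤ) * sm b' {g | g ∉ Subgroup.zpowers ((x ^ p : G) : G ⧸ M)} ≤
        p * b' ((x ^ p : G) : G ⧸ M) + sm b' {g | g ∉ Subgroup.zpowers ((x ^ p : G) : G ⧸ M)} := by
      nlinarith [mul_nonneg hp0 hT0]
    have h5 := mul_le_mul_of_nonneg_left hK hcM.le
    have h6 := pcz_cyc hUM' hp hoz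
    have h7 : sm b {g | g ∉ M} = Nat.card M * sm b' {q | q ≠ 1} := by
      rw [← hfib' {q | q ≠ 1} (fun h => h rfl)]
      congr 1
      ext y
      simp only [Set.mem_ofPred_eq, ne_eq, QuotientGroup.eq_one_iff]
    have h8 := pcz_split b M
    have h9 := vin_coset hUM (v := x ^ p) M hvM hmax
    rw [hsum' _ hvM] at h9
    rw [← hs']
    rw [h8, h7, h6]
    linarith [h5, h9]

end Pool.CND
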