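import Pool.Agent.H37.CNL.Stmts
import Pool.Agent.H25.CNL.Gen

/-!
# Row `VIN` of the board `cnl` (helper25)
-/

set_option autoImplicit false

namespace Pool.CND

open Finset

theorem vin_thm (hVI1 : S_VI1) (hVSM : S_VSM) (hVPO : S_VPO) (hPCG : S_PCG) (hPCQ : S_PCQ)
    (hVAS : S_VAS) : S_VIN := by
  intro p k L G _ _ _ _ _ _ ρ t P Δ Ω l hP hp2 hcen hΩ hl
  refine vin_gen p (fun (H : Type) (_ : Group H) (b : H → ℤ) =>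
      ∃ (L' : Type) (_ : Field L') (_ : Algebra k L') (ρ' : H →* (L' ≃ₐ[k] L')) (t' : L')
        (P' : Place k L') (Δ' : L' → L'), PCE p ρ' t' P' Δ' ∧ b = fun g => P'.b (ρ' g))
    hPCG hPCQ hP.pr hp2 ?_ ?_ ?_ ?_ (Nat.card G) G (fun g => P.b (ρ g)) Ω l
    ⟨L, inferInstance, inferInstance, ρ, t, P, Δ, hP, rfl⟩ hP.cd le_rfl hcen hΩ hl
  · rintro H _ _ b ⟨L', _, _, ρ', t', P', Δ', hP', rfl⟩
    exact (hVAS p k L' H ρ' t' P' Δ' hP').2.2.2.1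
  · rintro H _ _ b ⟨L', _, _, ρ', t', P', Δ', hP', rfl⟩ g hg
    exact hVPO p k L' H ρ' t' P' Δ' hP' g hg
  · rintro H _ _ b ⟨L', _, _, ρ', t', P', Δ', hP', rfl⟩ M _
    obtain ⟨E, ρ'', t'', Q, Δ'', -, -, -, -, hQ, -, hsum⟩ := hVSM p k L' H ρ' t' P' Δ' M hP'
    exact ⟨fun g => Q.b (ρ'' g), ⟨E, inferInstance, inferInstance, ρ'', t'', Q, Δ'', hQ, rfl⟩, hsum⟩
  · rintro H _ _ b z x R ⟨L', _, _, ρ', t', P', Δ', hP', rfl⟩ hz hzc hxz hcom hR hmax hgap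
    exact hVI1 p k L' H ρ' t' P' Δ' z x R hP' hp2 hz hzc hxz hcom hR hmax hgap

end Pool.CND
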